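import Pool.Agent.Helper40.AC.Stmts

/-!
Project AC (MP_4c91e2_ag), packet P20: the jet lemma.
-/

open scoped ContDiff Topology
open MvPolynomial Filter Asymptotics Pool.Agent.Helper40.AC

namespace Pool.Agent.Helper54.AC

noncomputable section

/-- Polynomials in eight variables. -/
abbrev PP := MvPolynomial (Fin 8) ℂ

/-- The maximal ideal at `z`. -/
def mz (z : Fin 8 → ℂ) : Ideal PP := RingHom.ker (eval z : PP →+* ℂ)

theorem mem_mz {z : Fin 8 → ℂ} {p : PP} : p ∈ mz z ↔ eval z p = 0 := RingHom.mem_ker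

theorem X_mem (z : Fin 8 → ℂ) (i : Fin 8) : (X i - C (z i) : PP) ∈ mz z := by
  simp [mem_mz]

/-- First order Taylor remainder. -/
def Dr (z : Fin 8 → ℂ) (F : PP) : PP :=
  F - C (eval z F) - ∑ i, C (cgrad F z i) * (X i - C (z i))

theorem taylor1 (z : Fin 8 → ℂ) (F : PP) : Dr z F ∈ (mz z) ^ 2 := by
  induction F using MvPolynomial.induction_on with
  | C a => simp [Dr, cgrad]
  | add p q hp hq =>
    have h : Dr z (p + q) = Dr z p + Dr z q := by
      simp only [Dr, cgrad, map_add, add_mul, Finset.sum_add_distrib]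
      ring
    rw [h]
    exact add_mem hp hq
  | mul_X p j hp =>
    have h : Dr z (p * X j) = X j * Dr z p +
        ∑ i, C (cgrad p z i) * ((X j - C (z j)) * (X i - C (z i))) := by
      have h1 : ∀ i, cgrad (p * X j) z i = z j * cgrad p z i + (if i = j then eval z p else 0) := by
        intro i
        simp only [cgrad, Derivation.leibniz, pderiv_X, smul_eq_mul, map_add, map_mul, eval_X]
        by_cases hij : i = j
        · subst hij
          simp
          ring
        · simp [hij, Ne.symm hij]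
      have h2 : ∑ i, C (cgrad (p * X j) z i) * (X i - C (z i)) =
          C (z j) * ∑ i, C (cgrad p z i) * (X i - C (z i)) + C (eval z p) * (X j - C (z j)) := by
        simp only [h1, map_add, map_mul, add_mul, Finset.sum_add_distrib, Finset.mul_sum]
        congr 1
        · exact Finset.sum_congr rfl fun i _ => by ring
        · rw [Finset.sum_eq_single j]
          · simp
          · intro b _ hb
            simp [hb]
          · simp
      have h3 : ∑ i, C (cgrad p z i) * ((X j - C (z j)) * (X i - C (z i))) =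
          (X j - C (z j)) * ∑ i, C (cgrad p z i) * (X i - C (z i)) := by
        rw [Finset.mul_sum]
        exact Finset.sum_congr rfl fun i _ => by ring
      rw [Dr, h2, h3, Dr, map_mul, eval_X, C_mul]
      ring
    rw [h]
    refine add_mem (Ideal.mul_mem_left _ _ hp) (sum_mem fun i _ => Ideal.mul_mem_left _ _ ?_)
    rw [pow_two]
    exact Ideal.mul_mem_mul (X_mem z j) (X_mem z i)

/-- The affine coordinate functions. -/
def ell (z : Fin 8 → ℂ) (lam : Fin 6 → Fin 8 → ℂ) (j : Fin 6) : PP :=
  ∑ i, C (lam j i) * (X i - C (z i))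

theorem eval_ell (z : Fin 8 → ℂ) (lam : Fin 6 → Fin 8 → ℂ) (j : Fin 6) (w : Fin 8 → ℂ) :
    eval w (ell z lam j) = ∑ i, lam j i * (w i - z i) := by
  simp [ell, map_sum]

theorem ell_mem (z : Fin 8 → ℂ) (lam : Fin 6 → Fin 8 → ℂ) (j : Fin 6) : ell z lam j ∈ mz z := by
  simp [mem_mz, eval_ell]

/-- Generation modulo `I + m^k`. -/
theorem gen (z : Fin 8 → ℂ) (lam : Fin 6 → Fin 8 → ℂ) (I : Ideal PP)
    (hX : ∀ i : Fin 8, ∃ c : Fin 6 → ℂ,
      (X i - C (z i) - ∑ j, C (c j) * ell z lam j : PP) ∈ I ⊔ (mz z) ^ 2)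
    (hI : I ≤ mz z) (k : ℕ) (F : PP) :
    ∃ G : MvPolynomial (Fin 6) ℂ, F - aeval (ell z lam) G ∈ I ⊔ (mz z) ^ (k + 1) := by
  induction k generalizing F with
  | zero =>
    refine ⟨C (eval z F), Ideal.mem_sup_right ?_⟩
    simp [mem_mz]
  | succ k ih =>
    -- the subalgebra of good polynomials
    have hadd : ∀ F₁ F₂ : PP,
        (∃ G : MvPolynomial (Fin 6) ℂ, F₁ - aeval (ell z lam) G ∈ I ⊔ (mz z) ^ (k + 2)) →
        (∃ G : MvPolynomial (Fin 6) ℂ, F₂ - aeval (ell z lam) G ∈ I ⊔ (mz z) ^ (k + 2)) →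
        ∃ G : MvPolynomial (Fin 6) ℂ, F₁ + F₂ - aeval (ell z lam) G ∈ I ⊔ (mz z) ^ (k + 2) := by
      rintro F₁ F₂ ⟨G₁, h₁⟩ ⟨G₂, h₂⟩
      refine ⟨G₁ + G₂, ?_⟩
      have h := add_mem h₁ h₂
      rw [map_add]
      convert h using 1
      ring
    have hmul : ∀ F₁ F₂ : PP,
        (∃ G : MvPolynomial (Fin 6) ℂ, F₁ - aeval (ell z lam) G ∈ I ⊔ (mz z) ^ (k + 2)) →
        (∃ G : MvPolynomial (Fin 6) ℂ, F₂ - aeval (ell z lam) G ∈ I ⊔ (mz z) ^ (k + 2)) →
        ∃ G : MvPolynomial (Fin 6) ℂ, F₁ * F₂ - aeval (ell z lam) G ∈ I ⊔ (mz z) ^ (k + 2) := by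
      rintro F₁ F₂ ⟨G₁, h₁⟩ ⟨G₂, h₂⟩
      refine ⟨G₁ * G₂, ?_⟩
      have h := add_mem (Ideal.mul_mem_left _ F₂ h₁)
        (Ideal.mul_mem_left _ (aeval (ell z lam) G₁) h₂)
      rw [map_mul]
      convert h using 1
      ring
    -- elements of m^2
    have hprod : ∀ a ∈ mz z, ∀ b ∈ mz z,
        ∃ G : MvPolynomial (Fin 6) ℂ, a * b - aeval (ell z lam) G ∈ I ⊔ (mz z) ^ (k + 2) := by
      intro a ha b hb
      obtain ⟨Ga, hGa⟩ := ih a
      obtain ⟨Gb, hGb⟩ := ih b
      refine ⟨Ga * Gb, ?_⟩
      have hle : I ⊔ (mz z) ^ (k + 1) ≤ mz z :=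
        sup_le hI (Ideal.pow_le_self (by omega))
      have hGb' : aeval (ell z lam) Gb ∈ mz z := by
        have := sub_mem hb (hle hGb)
        simpa using this
      have key : ∀ x ∈ I ⊔ (mz z) ^ (k + 1), ∀ y ∈ mz z, x * y ∈ I ⊔ (mz z) ^ (k + 2) := by
        intro x hx y hy
        obtain ⟨s, hs, t, ht, rfl⟩ := Submodule.mem_sup.1 hx
        rw [add_mul]
        refine add_mem (Ideal.mem_sup_left (Ideal.mul_mem_right _ _ hs)) (Ideal.mem_sup_right ?_)
        rw [pow_succ _ (k + 1)]
        exact Ideal.mul_mem_mul ht hy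
      have h := add_mem (key _ hGb _ ha) (key _ hGa _ hGb')
      rw [map_mul]
      convert h using 1
      ring
    have hsq : ∀ a ∈ (mz z) ^ 2,
        ∃ G : MvPolynomial (Fin 6) ℂ, a - aeval (ell z lam) G ∈ I ⊔ (mz z) ^ (k + 2) := by
      intro a ha
      rw [pow_two] at ha
      exact Submodule.mul_induction_on ha hprod fun x y hx hy => hadd x y hx hy
    have hlin : ∀ i : Fin 8, ∃ G : MvPolynomial (Fin 6) ℂ,
        (X i : PP) - aeval (ell z lam) G ∈ I ⊔ (mz z) ^ (k + 2) := by
      intro i
      obtain ⟨c, hc⟩ := hX i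
      obtain ⟨s, hs, t, ht, hst⟩ := Submodule.mem_sup.1 hc
      obtain ⟨G, hG⟩ := hsq t ht
      refine ⟨G + C (z i) + ∑ j, C (c j) * X j, ?_⟩
      have h := add_mem (Ideal.mem_sup_left (T := (mz z) ^ (k + 2)) hs) hG
      convert h using 1
      have h2 : (X i : PP) = s + t + C (z i) + ∑ j, C (c j) * ell z lam j := by
        rw [hst]; ring
      rw [h2]
      simp only [map_add, map_sum, map_mul, aeval_X, algHom_C, algebraMap_eq]
      ring
    induction F using MvPolynomial.induction_on with
    | C a => exact ⟨C a, by simp⟩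
    | add p q hp hq => exact hadd _ _ hp hq
    | mul_X p j hp => exact hmul _ _ hp (hlin j)

/-- Polynomials vanishing to order `k` at the origin go to `m^k`. -/
theorem hom_mem (z : Fin 8 → ℂ) (lam : Fin 6 → Fin 8 → ℂ) (G : MvPolynomial (Fin 6) ℂ) (k : ℕ)
    (h : ∀ d < k, homogeneousComponent d G = 0) : aeval (ell z lam) G ∈ (mz z) ^ k := by
  have hmon : ∀ n : Fin 6 →₀ ℕ, k ≤ n.degree →
      (n.prod fun j e => ell z lam j ^ e) ∈ (mz z) ^ k := by
    intro n hn
    have h1 : (n.prod fun j e => ell z lam j ^ e) ∈ (mz z) ^ n.degree := by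
      rw [Finsupp.prod, Finsupp.degree_apply, ← Finset.prod_pow_eq_pow_sum]
      exact Ideal.prod_mem_prod fun j _ => Ideal.pow_mem_pow (ell_mem z lam j) _
    exact Ideal.pow_le_pow_right hn h1
  rw [G.as_sum, map_sum]
  refine sum_mem fun n hn => ?_
  rw [aeval_monomial]
  refine Ideal.mul_mem_left _ _ (hmon n ?_)
  by_contra hlt
  push Not at hlt
  have h1 := congrArg (coeff n) (h n.degree hlt)
  rw [coeff_homogeneousComponent] at h1
  simp at h1
  exact (mem_support_iff.1 hn) h1

/-! ### Analysis -/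

theorem eval_hom (G : MvPolynomial (Fin 6) ℂ) (d : ℕ) (c : ℂ) (w : Fin 6 → ℂ) :
    eval (fun i => c * w i) (homogeneousComponent d G) =
      c ^ d * eval w (homogeneousComponent d G) := by
  rw [eval_eq', eval_eq', Finset.mul_sum]
  refine Finset.sum_congr rfl fun n hn => ?_
  have h1 : n.degree = d := by
    by_contra hne
    have h2 := mem_support_iff.1 hn
    rw [coeff_homogeneousComponent] at h2
    simp [hne] at h2
  have h3 : ∏ i, (c * w i) ^ n i = c ^ d * ∏ i, w i ^ n i := by
    simp only [mul_pow]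
    rw [Finset.prod_mul_distrib, Finset.prod_pow_eq_pow_sum, ← h1, Finsupp.degree_eq_sum]
  rw [h3]
  ring

theorem cont_eval {σ : Type} (F : MvPolynomial σ ℂ) : Continuous fun w : σ → ℂ => eval w F :=
  MvPolynomial.continuous_eval F

/-- The lowest homogeneous part along a curve. -/
theorem curve (G : MvPolynomial (Fin 6) ℂ) (L : ℝ → Fin 6 → ℂ) (v : Fin 6 → ℂ)
    (hL : HasDerivAt L v 0) (L0 : L 0 = 0) (k d : ℕ) (hd : d < k)
    (hO : (fun t : ℝ => eval (L t) G) =O[𝓝 0] (fun t : ℝ => t ^ k))
    (hG : ∀ e < d, homogeneousComponent e G = 0) :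
    eval v (homogeneousComponent d G) = 0 := by
  have hw : Tendsto (fun t : ℝ => (fun i => (t : ℂ)⁻¹ * L t i : Fin 6 → ℂ)) (𝓝[≠] 0) (𝓝 v) := by
    have h := hL.tendsto_slope_zero
    refine h.congr fun t => ?_
    rw [L0, zero_add, sub_zero]
    funext i
    simp [Complex.real_smul]
  have hexp : ∀ t : ℝ, t ≠ 0 → ((t : ℂ) ^ d)⁻¹ * eval (L t) G =
      ∑ e ∈ Finset.range (G.totalDegree + 1), (t : ℂ) ^ (e - d) *
        eval (fun i => (t : ℂ)⁻¹ * L t i : Fin 6 → ℂ) (homogeneousComponent e G) := by
    intro t ht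
    have htc : (t : ℂ) ≠ 0 := by exact_mod_cast ht
    have h1 : L t = fun i => (t : ℂ) * ((t : ℂ)⁻¹ * L t i) := by
      funext i
      field_simp
    have h2 : eval (L t) G = ∑ e ∈ Finset.range (G.totalDegree + 1), (t : ℂ) ^ e *
        eval (fun i => (t : ℂ)⁻¹ * L t i : Fin 6 → ℂ) (homogeneousComponent e G) := by
      conv_lhs => rw [h1, ← sum_homogeneousComponent G, map_sum]
      refine Finset.sum_congr rfl fun e _ => ?_
      rw [eval_hom]
    rw [h2, Finset.mul_sum]
    refine Finset.sum_congr rfl fun e _ => ?_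
    rcases lt_or_ge e d with he | he
    · rw [hG e he]
      simp
    · have h3 : (t : ℂ) ^ e = (t : ℂ) ^ d * (t : ℂ) ^ (e - d) := by
        rw [← pow_add, Nat.add_sub_cancel' he]
      rw [h3]
      field_simp
  have hlim1 : Tendsto (fun t : ℝ => ((t : ℂ) ^ d)⁻¹ * eval (L t) G) (𝓝[≠] 0)
      (𝓝 (∑ e ∈ Finset.range (G.totalDegree + 1), (0 : ℂ) ^ (e - d) *
        eval v (homogeneousComponent e G))) := by
    have h1 : Tendsto (fun t : ℝ => ∑ e ∈ Finset.range (G.totalDegree + 1), (t : ℂ) ^ (e - d) *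
        eval (fun i => (t : ℂ)⁻¹ * L t i : Fin 6 → ℂ) (homogeneousComponent e G)) (𝓝[≠] 0)
        (𝓝 (∑ e ∈ Finset.range (G.totalDegree + 1), (0 : ℂ) ^ (e - d) *
        eval v (homogeneousComponent e G))) := by
      refine tendsto_finsetSum _ fun e _ => Tendsto.mul ?_ ?_
      · have h2 : Continuous fun t : ℝ => (t : ℂ) ^ (e - d) := by fun_prop
        have h3 := (h2.tendsto 0).mono_left (nhdsWithin_le_nhds (s := {0}ᶜ))
        simpa using h3
      · exact ((cont_eval (homogeneousComponent e G)).tendsto v).comp hw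
    refine h1.congr' ?_
    filter_upwards [self_mem_nhdsWithin] with t ht
    exact (hexp t ht).symm
  have hsum : ∑ e ∈ Finset.range (G.totalDegree + 1), (0 : ℂ) ^ (e - d) *
        eval v (homogeneousComponent e G) = eval v (homogeneousComponent d G) := by
    by_cases hdN : d ∈ Finset.range (G.totalDegree + 1)
    · rw [Finset.sum_eq_single_of_mem d hdN]
      · simp
      · intro e _ hne
        rcases lt_or_ge e d with he | he
        · rw [hG e he]; simp
        · have : e - d ≠ 0 := by omega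
          rw [zero_pow this, zero_mul]
    · have h0 : homogeneousComponent d G = 0 := by
        apply homogeneousComponent_eq_zero
        simpa [Nat.lt_succ_iff] using hdN
      rw [h0, map_zero]
      refine Finset.sum_eq_zero fun e he => ?_
      have hed : e < d := by
        simp only [Finset.mem_range] at he hdN
        omega
      rw [hG e hed]
      simp
  have hlim2 : Tendsto (fun t : ℝ => ((t : ℂ) ^ d)⁻¹ * eval (L t) G) (𝓝[≠] 0) (𝓝 0) := by
    have h1 : (fun t : ℝ => ((t : ℂ) ^ d)⁻¹ * eval (L t) G) =O[𝓝[≠] 0]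
        (fun t : ℝ => t ^ (k - d)) := by
      have h2 : (fun t : ℝ => ((t : ℂ) ^ d)⁻¹) =O[𝓝[≠] 0] (fun t : ℝ => (t ^ d)⁻¹) := by
        refine IsBigO.of_bound 1 (Eventually.of_forall fun t => ?_)
        simp
      have h3 := h2.mul (hO.mono (nhdsWithin_le_nhds (s := {0}ᶜ)))
      refine h3.congr' (Eventually.of_forall fun t => rfl) ?_
      filter_upwards [self_mem_nhdsWithin] with t ht
      have ht' : t ≠ 0 := ht
      have h4 : t ^ k = t ^ d * t ^ (k - d) := by
        rw [← pow_add, Nat.add_sub_cancel' hd.le]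
      rw [h4]
      field_simp
    refine h1.trans_tendsto ?_
    have h2 : Continuous fun t : ℝ => t ^ (k - d) := by fun_prop
    have h3 := (h2.tendsto 0).mono_left (nhdsWithin_le_nhds (s := {0}ᶜ))
    have h4 : k - d ≠ 0 := by omega
    simpa [zero_pow h4] using h3
  rw [← hsum]
  exact tendsto_nhds_unique hlim1 hlim2

/-- Chain rule for polynomials along a curve. -/
theorem deriv_eval (F : PP) (c : ℝ → Fin 8 → ℂ) (c' : Fin 8 → ℂ) (hc : HasDerivAt c c' 0) :
    HasDerivAt (fun t => eval (c t) F) (∑ i, cgrad F (c 0) i * c' i) 0 := by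
  induction F using MvPolynomial.induction_on with
  | C a => simpa [cgrad] using hasDerivAt_const (0 : ℝ) a
  | add p q hp hq =>
    have h := hp.add hq
    refine (h.congr_deriv ?_).congr_of_eventuallyEq (Eventually.of_forall fun t => ?_)
    · simp only [cgrad, map_add, add_mul, Finset.sum_add_distrib]
    · simp
  | mul_X p j hp =>
    have hj : HasDerivAt (fun t => c t j) (c' j) 0 := (hasDerivAt_pi.1 hc) j
    have h := hp.mul hj
    refine (h.congr_deriv ?_).congr_of_eventuallyEq (Eventually.of_forall fun t => ?_)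
    · have h1 : ∀ i, cgrad (p * X j) (c 0) i =
          c 0 j * cgrad p (c 0) i + (if i = j then eval (c 0) p else 0) := by
        intro i
        simp only [cgrad, Derivation.leibniz, pderiv_X, smul_eq_mul, map_add, map_mul, eval_X]
        by_cases hij : i = j
        · subst hij
          simp
          ring
        · simp [hij, Ne.symm hij]
      simp only [h1, add_mul, Finset.sum_add_distrib, ite_mul, zero_mul, Finset.sum_ite_eq',
        Finset.mem_univ, if_true]
      rw [Finset.sum_mul]
      congr 1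
      exact Finset.sum_congr rfl fun i _ => by ring
    · simp

/-- Elements of `m^k` vanish to order `k` along a curve. -/
theorem bigO_pow (c : ℝ → Fin 8 → ℂ) (c' : Fin 8 → ℂ) (hc : HasDerivAt c c' 0) (k : ℕ) (r : PP)
    (hr : r ∈ (mz (c 0)) ^ k) : (fun t : ℝ => eval (c t) r) =O[𝓝 0] (fun t : ℝ => t ^ k) := by
  induction k generalizing r with
  | zero =>
    simp only [pow_zero]
    have h := (deriv_eval r c c' hc).continuousAt
    exact h.tendsto.isBigO_one ℝ
  | succ k ih =>
    rw [pow_succ] at hr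
    refine Submodule.mul_induction_on hr ?_ ?_
    · intro a ha b hb
      have h1 := ih a ha
      have h2 : (fun t : ℝ => eval (c t) b) =O[𝓝 0] (fun t : ℝ => t) := by
        have h3 := (deriv_eval b c c' hc).differentiableAt.isBigO_sub
        have h4 : eval (c 0) b = 0 := mem_mz.1 hb
        simpa [h4] using h3
      have h5 := h1.mul h2
      refine h5.congr (fun t => ?_) (fun t => ?_)
      · simp
      · rw [pow_succ]
    · intro x y hx hy
      have h5 := hx.add hy
      refine h5.congr (fun t => ?_) (fun t => rfl)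
      simp

/-- Dual vectors of a linearly independent family. -/
theorem exists_dual (b : Fin 6 → Fin 8 → ℂ) (hb : LinearIndependent ℂ b) :
    ∃ lam : Fin 6 → Fin 8 → ℂ, ∀ j k, ∑ i, lam j i * b k i = if j = k then 1 else 0 := by
  obtain ⟨g, hg⟩ := (Fintype.linearCombination ℂ b).exists_leftInverse_of_injective
    (LinearMap.ker_eq_bot.2 (linearIndependent_iff_injective_fintypeLinearCombination.1 hb))
  refine ⟨fun j i => g (Pi.single i 1) j, fun j k => ?_⟩
  have h1 : g (b k) = Pi.single k 1 := by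
    have h := LinearMap.congr_fun hg (Pi.single k 1)
    simpa [Fintype.linearCombination_apply_single] using h
  have h2 : g (b k) = ∑ i, b k i • g (Pi.single i 1) := by
    conv_lhs => rw [pi_eq_sum_univ' (b k)]
    simp
  have h3 := congrFun h2 j
  rw [h1] at h3
  simp only [Finset.sum_apply, Pi.smul_apply, smul_eq_mul] at h3
  rw [Finset.sum_congr rfl fun i _ => mul_comm (g (Pi.single i 1) j) (b k i), ← h3]
  simp [Pi.single_apply]

/-- The jet lemma. -/
theorem jet_ok : S_JET := by
  intro J ψ hψ hJ hli F₁ hF₁ F₂ hF₂ hcg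
  set z : Fin 8 → ℂ := ψ 0 with hz
  set I : Ideal PP := Ideal.span {F₁, F₂} with hI
  have hIJ : I ≤ J := by
    rw [hI, Ideal.span_le]
    rintro x (rfl | rfl)
    · exact hF₁
    · exact hF₂
  have hJz : J ≤ mz z := fun F hF => mem_mz.2 (hJ.self_of_nhds F hF)
  have hdiff : HasFDerivAt ψ (fderiv ℝ ψ 0) 0 :=
    (hψ.differentiableAt (by simp)).hasFDerivAt
  have hcurve : ∀ v : Fin 6 → ℝ, HasDerivAt (fun t : ℝ => ψ (t • v)) (fderiv ℝ ψ 0 v) 0 := by
    intro v
    have h1 : HasDerivAt (fun t : ℝ => t • v) v 0 := by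
      simpa using (hasDerivAt_id (0 : ℝ)).smul_const v
    have h2 : HasFDerivAt ψ (fderiv ℝ ψ 0) ((fun t : ℝ => t • v) 0) := by
      simpa using hdiff
    exact h2.comp_hasDerivAt 0 h1
  have hc0 : ∀ v : Fin 6 → ℝ, ψ ((0 : ℝ) • v) = z := by
    intro v
    simp [hz]
  have hJc : ∀ v : Fin 6 → ℝ, ∀ᶠ t in 𝓝 (0 : ℝ), ∀ F ∈ J, eval (ψ (t • v)) F = 0 := by
    intro v
    have h1 : Tendsto (fun t : ℝ => t • v) (𝓝 0) (𝓝 0) := by
      have h2 : Continuous fun t : ℝ => t • v := by fun_prop
      simpa using h2.tendsto 0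
    exact h1.eventually hJ
  -- the gradients kill the tangent vectors
  have hkill : ∀ F ∈ J, ∀ v : Fin 6 → ℝ, ∑ i, cgrad F z i * fderiv ℝ ψ 0 v i = 0 := by
    intro F hF v
    have h1 := deriv_eval F _ _ (hcurve v)
    rw [hc0 v] at h1
    have h2 : HasDerivAt (fun t : ℝ => eval (ψ (t • v)) F) 0 0 := by
      refine (hasDerivAt_const (0 : ℝ) (0 : ℂ)).congr_of_eventuallyEq ?_
      filter_upwards [hJc v] with t ht
      exact ht F hF
    exact h1.unique h2
  obtain ⟨lam, hlam⟩ := exists_dual _ hli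
  -- spanning
  have hspan : ∀ i : Fin 8, ∃ (a : Fin 2 → ℂ) (c : Fin 6 → ℂ), ∀ l : Fin 8,
      (if l = i then (1 : ℂ) else 0) =
        a 0 * cgrad F₁ z l + a 1 * cgrad F₂ z l + ∑ j, c j * lam j l := by
    have hind : LinearIndependent ℂ
        (Sum.elim ![cgrad F₁ z, cgrad F₂ z] lam : Fin 2 ⊕ Fin 6 → Fin 8 → ℂ) := by
      rw [Fintype.linearIndependent_iff]
      intro a ha
      rw [Fintype.sum_sum_type] at ha
      simp only [Sum.elim_inl, Sum.elim_inr] at ha
      have h6 : ∀ k : Fin 6, a (Sum.inr k) = 0 := by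
        intro k
        have h1 : ∑ l, (∑ x, a (Sum.inl x) • (![cgrad F₁ z, cgrad F₂ z] : Fin 2 → Fin 8 → ℂ) x +
            ∑ x, a (Sum.inr x) • lam x) l * fderiv ℝ ψ 0 (Pi.single k 1) l = 0 := by
          rw [ha]; simp
        have h2 := hkill F₁ hF₁ (Pi.single k 1)
        have h3 := hkill F₂ hF₂ (Pi.single k 1)
        simp only [Pi.add_apply, Finset.sum_apply, Pi.smul_apply, smul_eq_mul, add_mul,
          Finset.sum_add_distrib, Fin.sum_univ_two, Matrix.cons_val_zero, Matrix.cons_val_one]
          at h1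
        have h4 : ∑ l, a (Sum.inl 0) * cgrad F₁ z l * fderiv ℝ ψ 0 (Pi.single k 1) l = 0 := by
          rw [← mul_zero (a (Sum.inl 0)), ← h2, Finset.mul_sum]
          exact Finset.sum_congr rfl fun l _ => by ring
        have h5 : ∑ l, a (Sum.inl 1) * cgrad F₂ z l * fderiv ℝ ψ 0 (Pi.single k 1) l = 0 := by
          rw [← mul_zero (a (Sum.inl 1)), ← h3, Finset.mul_sum]
          exact Finset.sum_congr rfl fun l _ => by ring
        have h6 : ∑ l, (∑ x, a (Sum.inr x) * lam x l) * fderiv ℝ ψ 0 (Pi.single k 1) l =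
            a (Sum.inr k) := by
          simp only [Finset.sum_mul]
          rw [Finset.sum_comm]
          have h7 : ∀ x, ∑ l, a (Sum.inr x) * lam x l * fderiv ℝ ψ 0 (Pi.single k 1) l =
              a (Sum.inr x) * (if x = k then 1 else 0) := by
            intro x
            rw [← hlam x k, Finset.mul_sum]
            exact Finset.sum_congr rfl fun l _ => by ring
          simp only [h7]
          simp
        rw [h4, h5, h6] at h1
        simpa using h1
      have h2 : ∑ x, a (Sum.inl x) • (![cgrad F₁ z, cgrad F₂ z] : Fin 2 → Fin 8 → ℂ) x = 0 := by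
        simpa [h6] using ha
      have h3 := Fintype.linearIndependent_iff.1 hcg (fun x => a (Sum.inl x)) h2
      rintro (x | x)
      · exact h3 x
      · exact h6 x
    have htop := hind.span_eq_top_of_card_eq_finrank' (by simp)
    intro i
    have hmem : (Pi.single i 1 : Fin 8 → ℂ) ∈ Submodule.span ℂ (Set.range
        (Sum.elim ![cgrad F₁ z, cgrad F₂ z] lam : Fin 2 ⊕ Fin 6 → Fin 8 → ℂ)) := by
      rw [htop]; trivial
    obtain ⟨a, ha⟩ := (Submodule.mem_span_range_iff_exists_fun ℂ).1 hmem
    refine ⟨fun x => a (Sum.inl x), fun x => a (Sum.inr x), fun l => ?_⟩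
    rw [Fintype.sum_sum_type] at ha
    have h1 := congrFun ha l
    simp only [Sum.elim_inl, Sum.elim_inr, Pi.add_apply, Finset.sum_apply, Pi.smul_apply,
      smul_eq_mul, Fin.sum_univ_two, Matrix.cons_val_zero, Matrix.cons_val_one,
      Pi.single_apply] at h1
    exact h1.symm
  have hX : ∀ i : Fin 8, ∃ c : Fin 6 → ℂ,
      (X i - C (z i) - ∑ j, C (c j) * ell z lam j : PP) ∈ I ⊔ (mz z) ^ 2 := by
    intro i
    obtain ⟨a, c, hac⟩ := hspan i
    refine ⟨c, ?_⟩
    have hz1 : eval z F₁ = 0 := mem_mz.1 (hJz hF₁)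
    have hz2 : eval z F₂ = 0 := mem_mz.1 (hJz hF₂)
    have h1 : (X i - C (z i) : PP) = ∑ l, C (if l = i then (1 : ℂ) else 0) * (X l - C (z l)) := by
      rw [Finset.sum_eq_single i]
      · simp
      · intro b _ hb
        simp [hb]
      · simp
    have h2 : (X i - C (z i) - ∑ j, C (c j) * ell z lam j : PP) =
        C (a 0) * (F₁ - Dr z F₁) + C (a 1) * (F₂ - Dr z F₂) := by
      have h3 : ∑ l, C (cgrad F₁ z l) * (X l - C (z l)) = F₁ - Dr z F₁ := by
        rw [Dr, hz1]; simp
      have h4 : ∑ l, C (cgrad F₂ z l) * (X l - C (z l)) = F₂ - Dr z F₂ := by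
        rw [Dr, hz2]; simp
      rw [h1, ← h3, ← h4]
      simp only [hac, ell, map_add, map_sum, map_mul, add_mul, Finset.sum_add_distrib,
        Finset.mul_sum, Finset.sum_mul]
      rw [Finset.sum_comm (f := fun (x : Fin 8) (j : Fin 6) =>
        (C (c j) * C (lam j x) * (X x - C (z x)) : PP))]
      simp only [mul_assoc]
      ring
    rw [h2]
    have h5 : (C (a 0) * (F₁ - Dr z F₁) + C (a 1) * (F₂ - Dr z F₂) : PP) =
        (C (a 0) * F₁ + C (a 1) * F₂) + -(C (a 0) * Dr z F₁ + C (a 1) * Dr z F₂) := by ring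
    rw [h5]
    refine add_mem (Ideal.mem_sup_left ?_) (Ideal.mem_sup_right ?_)
    · exact add_mem (Ideal.mul_mem_left _ _ (Ideal.subset_span (by simp)))
        (Ideal.mul_mem_left _ _ (Ideal.subset_span (by simp)))
    · exact neg_mem (add_mem (Ideal.mul_mem_left _ _ (taylor1 z F₁))
        (Ideal.mul_mem_left _ _ (taylor1 z F₂)))
  -- membership in all I + m^k
  have hall : ∀ F ∈ J, ∀ k : ℕ, F ∈ I ⊔ (mz z) ^ (k + 1) := by
    intro F hF k
    obtain ⟨G, hG⟩ := gen z lam I hX (hIJ.trans hJz) k F
    obtain ⟨s, hs, r, hr, hsr⟩ := Submodule.mem_sup.1 hG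
    have hcomp : ∀ d < k + 1, homogeneousComponent d G = 0 := by
      intro d
      induction d using Nat.strong_induction_on with
      | _ d ih =>
        intro hd
        have hreal : ∀ v : Fin 6 → ℝ,
            eval (fun j => (v j : ℂ)) (homogeneousComponent d G) = 0 := by
          intro v
          refine curve G (fun t j => eval (ψ (t • v)) (ell z lam j)) (fun j => (v j : ℂ))
            ?_ ?_ (k + 1) d hd ?_ (fun e he => ih e he (by omega))
          · rw [hasDerivAt_pi]
            intro j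
            have h1 := deriv_eval (ell z lam j) _ _ (hcurve v)
            refine h1.congr_deriv ?_
            rw [hc0 v]
            have h2 : ∀ i, cgrad (ell z lam j) z i = lam j i := by
              intro i
              simp only [cgrad, ell, map_sum, Derivation.leibniz, map_sub, pderiv_X, pderiv_C,
                smul_eq_mul, sub_zero, mul_zero, add_zero, map_mul, eval_C]
              rw [Finset.sum_eq_single i]
              · simp
              · intro b _ hb
                simp [Ne.symm hb]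
              · simp
            simp only [h2]
            have h3 : v = ∑ k, v k • (Pi.single k 1 : Fin 6 → ℝ) := pi_eq_sum_univ' v
            have h4 : ∀ i, fderiv ℝ ψ 0 v i =
                ∑ k, (v k : ℂ) * fderiv ℝ ψ 0 (Pi.single k 1) i := by
              intro i
              conv_lhs => rw [h3, map_sum]
              simp [Complex.real_smul]
            simp only [h4, Finset.mul_sum]
            rw [Finset.sum_comm]
            have h5 : ∀ x, ∑ i, lam j i * ((v x : ℂ) * fderiv ℝ ψ 0 (Pi.single x 1) i) =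
                (v x : ℂ) * (if j = x then 1 else 0) := by
              intro x
              rw [← hlam j x, Finset.mul_sum]
              exact Finset.sum_congr rfl fun i _ => by ring
            simp only [h5]
            simp
          · funext j
            have h1 := ell_mem z lam j
            rw [mem_mz] at h1
            simpa [hz] using h1
          · have hr' : r ∈ (mz ((fun t : ℝ => ψ (t • v)) 0)) ^ (k + 1) := by
              have h0 : (fun t : ℝ => ψ (t • v)) 0 = z := hc0 v
              rw [h0]; exact hr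
            have h1 := (bigO_pow _ _ (hcurve v) (k + 1) r hr').neg_left
            refine h1.congr' ?_ EventuallyEq.rfl
            filter_upwards [hJc v] with t ht
            have h2 : eval (ψ (t • v)) (s + r) = eval (ψ (t • v)) (F - aeval (ell z lam) G) := by
              rw [hsr]
            rw [map_add, map_sub, ht s (hIJ hs), ht F hF] at h2
            have h3 : eval (ψ (t • v)) (aeval (ell z lam) G) =
                eval (fun j => eval (ψ (t • v)) (ell z lam j)) G := by
              rw [← coe_aeval_eq_eval, ← coe_aeval_eq_eval]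
              simp only [RingHom.coe_coe]
              rw [← AlgHom.comp_apply, comp_aeval]
            rw [h3] at h2
            simp only [zero_add, zero_sub] at h2
            rw [h2, neg_neg]
        refine funext_set (fun _ => Set.range (Complex.ofReal)) (fun _ =>
          Set.infinite_range_of_injective Complex.ofReal_injective) ?_
        intro x hx
        have h1 : ∀ j, ∃ y : ℝ, (y : ℂ) = x j := fun j => hx j (Set.mem_univ j)
        choose v hv using h1
        have h2 : x = fun j => (v j : ℂ) := funext fun j => (hv j).symm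
        rw [h2, hreal v, map_zero]
    have h1 : F = s + (r + aeval (ell z lam) G) := by
      rw [← add_assoc, hsr]; ring
    rw [h1]
    exact add_mem (Ideal.mem_sup_left hs)
      (Ideal.mem_sup_right (add_mem hr (hom_mem z lam G (k + 1) hcomp)))
  -- Krull
  have hkr : ∀ F ∈ J, ∃ e : PP, eval z e ≠ 0 ∧ e * F ∈ I := by
    intro F hF
    have h1 : (Ideal.Quotient.mk I F : PP ⧸ I) ∈
        (⨅ i : ℕ, (mz z) ^ i • ⊤ : Submodule PP (PP ⧸ I)) := by
      rw [Submodule.mem_iInf]
      intro i
      have h2 : F ∈ I ⊔ (mz z) ^ i := by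
        have h3 := hall F hF i
        exact (sup_le_sup_left (Ideal.pow_le_pow_right (Nat.le_succ i)) I) h3
      obtain ⟨s, hs, r, hr, hsr⟩ := Submodule.mem_sup.1 h2
      have h4 : (Ideal.Quotient.mk I F : PP ⧸ I) = r • (1 : PP ⧸ I) := by
        rw [← hsr, map_add, Ideal.Quotient.eq_zero_iff_mem.2 hs, zero_add]
        have h5 : (r • (1 : PP ⧸ I)) = Ideal.Quotient.mk I (r * 1) := rfl
        rw [h5, mul_one]
      rw [h4]
      exact Submodule.smul_mem_smul hr trivial
    obtain ⟨r, hr⟩ := ((mz z).mem_iInf_smul_pow_eq_bot_iff _).1 h1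
    refine ⟨1 - r, ?_, ?_⟩
    · have h2 := mem_mz.1 r.2
      rw [map_sub, h2]
      simp
    · rw [← Ideal.Quotient.eq_zero_iff_mem]
      have h3 : ((r : PP) • (Ideal.Quotient.mk I F : PP ⧸ I)) = Ideal.Quotient.mk I (r * F) :=
        rfl
      rw [h3] at hr
      rw [sub_mul, one_mul, map_sub, hr, sub_self]
  -- finite generation
  obtain ⟨S, hS⟩ := (isNoetherianRing_iff_ideal_fg PP).1 inferInstance J
  have hSJ : ∀ F ∈ S, F ∈ J := fun F hF => hS ▸ Ideal.subset_span hF
  choose! e he1 he2 using hkr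
  refine ⟨∏ F ∈ S, e F, ?_, ?_⟩
  · rw [map_prod]
    exact Finset.prod_ne_zero_iff.2 fun F hF => he1 F (hSJ F hF)
  · intro F hF
    rw [← hS] at hF
    refine Submodule.span_induction ?_ ?_ ?_ ?_ hF
    · intro x hx
      have hx' : x ∈ S := hx
      classical
      rw [← Finset.mul_prod_erase S e hx', mul_comm (e x), mul_assoc]
      exact Ideal.mul_mem_left _ _ (he2 x (hSJ x hx'))
    · simp
    · intro x y _ _ hx hy
      rw [mul_add]
      exact add_mem hx hy
    · intro a x _ hx
      rw [smul_eq_mul, mul_left_comm]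
      exact Ideal.mul_mem_left _ _ hx

end

end Pool.Agent.Helper54.AC
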